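import Pool.Agent.W626.FR.Stms

/-!
# Project FR: the quenched bound of the loss (LOSSQ)
-/

set_option autoImplicit false

namespace Pool.Agent.W540.FR

open MeasureTheory ProbabilityTheory Filter FrogGW FrogRec
open scoped ENNReal NNReal Classical Topology

lemma exp_le {y : ℝ} (hy : 0 < y) : Real.exp (-y) ≤ 2 / y ^ 2 := by
  have h1 := Real.quadratic_le_exp_of_nonneg hy.le
  rw [Real.exp_neg, inv_eq_one_div, div_le_div_iff₀ (Real.exp_pos y) (by positivity)]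
  nlinarith

lemma gg_key {M mu κ : ℝ≥0} (lam : ℝ≥0) (hM : 1 ≤ M) (hMmu : M ≤ mu) (hκ : κ ≠ 0)
    (hκ1 : κ ≤ 1) :
    1 / ((mu : ℝ) + lam) ^ 2 ≤
      ((κ : ℝ)⁻¹) ^ 2 * ((M : ℝ)⁻¹) ^ 2 * ((gg M 2 κ lam : ℝ≥0) : ℝ) := by
  have hκ0 : (0 : ℝ) < κ := by exact_mod_cast pos_iff_ne_zero.2 hκ
  have hκ1' : (κ : ℝ) ≤ 1 := by exact_mod_cast hκ1
  have hM1 : (1 : ℝ) ≤ M := by exact_mod_cast hM
  have hM0 : (0 : ℝ) < M := by linarith
  have hMm : (M : ℝ) ≤ mu := by exact_mod_cast hMmu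
  have hl : (0 : ℝ) ≤ lam := lam.2
  have e : ((κ : ℝ)⁻¹) ^ 2 * ((M : ℝ)⁻¹) ^ 2 * ((gg M 2 κ lam : ℝ≥0) : ℝ) =
      1 / ((κ : ℝ) * M + lam) ^ 2 := by
    unfold gg
    push_cast
    field_simp
  rw [e]
  apply one_div_le_one_div_of_le (by positivity)
  apply pow_le_pow_left₀ (by positivity)
  nlinarith

lemma int1 {M mu κ : ℝ≥0} (ν : Measure ℝ≥0) (f : ℝ≥0 → ℝ) (c a : ℝ) (hc : 0 ≤ c) (ha : 0 < a)
    (hM : 1 ≤ M) (hMmu : M ≤ mu) (hκ : κ ≠ 0) (hκ1 : κ ≤ 1)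
    (hf : ∀ lam : ℝ≥0, f lam ≤ c * Real.exp (-(a * ((mu : ℝ) + lam)))) :
    ∫⁻ lam, ENNReal.ofReal (f lam) ∂ν ≤
      ENNReal.ofReal (2 * c / a ^ 2 * (((κ : ℝ)⁻¹) ^ 2 * ((M : ℝ)⁻¹) ^ 2)) *
        ∫⁻ lam, (gg M 2 κ lam : ℝ≥0∞) ∂ν := by
  rw [← lintegral_const_mul' _ _ ENNReal.ofReal_ne_top]
  refine lintegral_mono fun lam => ?_
  show ENNReal.ofReal (f lam) ≤ ENNReal.ofReal _ * (gg M 2 κ lam : ℝ≥0∞)
  rw [← ENNReal.ofReal_coe_nnreal (p := gg M 2 κ lam), ← ENNReal.ofReal_mul (by positivity)]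
  apply ENNReal.ofReal_le_ofReal
  refine (hf lam).trans ?_
  have hM1 : (1 : ℝ) ≤ M := by exact_mod_cast hM
  have hMm : (M : ℝ) ≤ mu := by exact_mod_cast hMmu
  have hl : (0 : ℝ) ≤ lam := lam.2
  have hs : (0 : ℝ) < (mu : ℝ) + lam := by linarith
  have h1 := exp_le (mul_pos ha hs)
  have h2 := gg_key lam hM hMmu hκ hκ1
  calc c * Real.exp (-(a * ((mu : ℝ) + lam))) ≤ c * (2 / (a * ((mu : ℝ) + lam)) ^ 2) :=
        mul_le_mul_of_nonneg_left h1 hc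
    _ = 2 * c / a ^ 2 * (1 / ((mu : ℝ) + lam) ^ 2) := by
        field_simp
    _ ≤ 2 * c / a ^ 2 * (((κ : ℝ)⁻¹) ^ 2 * ((M : ℝ)⁻¹) ^ 2 * ((gg M 2 κ lam : ℝ≥0) : ℝ)) :=
        mul_le_mul_of_nonneg_left h2 (by positivity)
    _ = _ := by ring

lemma int2 {M m κ : ℝ≥0} (ν : Measure ℝ≥0) (α b : ℝ) (hα : 0 < α) (hα1 : α ≤ 1) (hb : 0 < b)
    (hM : 1 ≤ M) (hMm : M ≤ m) (hκ : α ≤ κ) (hν : ν {lam | lam < m} = 0) :
    ∫⁻ lam, ENNReal.ofReal (Real.exp (-(b * (lam : ℝ)))) ∂ν ≤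
      ENNReal.ofReal (8 / (b ^ 2 * α ^ 2) * ((M : ℝ)⁻¹) ^ 2) *
        ∫⁻ lam, (gg M 2 κ lam : ℝ≥0∞) ∂ν := by
  rw [← lintegral_const_mul' _ _ ENNReal.ofReal_ne_top]
  refine lintegral_mono_ae ?_
  have hae : ∀ᵐ lam ∂ν, m ≤ lam := by
    rw [ae_iff]
    simpa only [not_le] using hν
  filter_upwards [hae] with lam hlam
  rw [← ENNReal.ofReal_coe_nnreal (p := gg M 2 κ lam), ← ENNReal.ofReal_mul (by positivity)]
  apply ENNReal.ofReal_le_ofReal
  have hM1 : (1 : ℝ) ≤ M := by exact_mod_cast hM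
  have hM0 : (0 : ℝ) < M := by linarith
  have hMl : (M : ℝ) ≤ lam := by exact_mod_cast hMm.trans hlam
  have hl : (0 : ℝ) < lam := by linarith
  have hκ0 : (0 : ℝ) < κ := by linarith
  have h1 := exp_le (mul_pos hb hl)
  have h2 : 1 + (lam : ℝ) / ((κ : ℝ) * M) ≤ 2 * lam / (α * M) := by
    have h3 : (lam : ℝ) / ((κ : ℝ) * M) ≤ lam / (α * M) := by
      apply div_le_div_of_nonneg_left hl.le (by positivity)
      exact mul_le_mul_of_nonneg_right hκ hM0.le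
    have h4 : 1 ≤ (lam : ℝ) / (α * M) := by
      rw [le_div_iff₀ (by positivity)]
      nlinarith
    have h5 : 2 * (lam : ℝ) / (α * M) = lam / (α * M) + lam / (α * M) := by ring
    linarith
  have h6 : (α * M / (2 * lam)) ^ 2 ≤ ((gg M 2 κ lam : ℝ≥0) : ℝ) := by
    unfold gg
    push_cast
    apply pow_le_pow_left₀ (by positivity)
    have h7 : α * M / (2 * (lam : ℝ)) = (2 * lam / (α * M))⁻¹ := by
      rw [inv_div]
    rw [h7]
    exact inv_anti₀ (by positivity) h2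
  calc Real.exp (-(b * (lam : ℝ))) ≤ 2 / (b * (lam : ℝ)) ^ 2 := h1
    _ = 8 / (b ^ 2 * α ^ 2) * ((M : ℝ)⁻¹) ^ 2 * (α * M / (2 * lam)) ^ 2 := by
        field_simp
        ring
    _ ≤ _ := mul_le_mul_of_nonneg_left h6 (by positivity)

lemma W_le {x y K : ℝ} (hx : 0 < x) (hx1 : x ≤ 1) (hy : 0 ≤ y) (hK : x ≤ K) :
    (K / (1 + K))⁻¹ * (x / K) * (y / K) ≤ 8 * (x⁻¹) ^ 2 * y * ((1 + K)⁻¹) ^ 2 := by
  have hK0 : 0 < K := by linarith
  have h1 : (1 + K) * x ≤ 2 * K := by nlinarith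
  have h2 : ((1 + K) * x) ^ 3 ≤ (2 * K) ^ 3 := pow_le_pow_left₀ (by positivity) h1 3
  have e1 : (K / (1 + K))⁻¹ * (x / K) * (y / K) = (1 + K) * x * y / K ^ 3 := by
    field_simp
  have e2 : 8 * (x⁻¹) ^ 2 * y * ((1 + K)⁻¹) ^ 2 = 8 * y / (x ^ 2 * (1 + K) ^ 2) := by
    field_simp
  rw [e1, e2, div_le_div_iff₀ (by positivity) (by positivity)]
  have h3 : (1 + K) * x * y * (x ^ 2 * (1 + K) ^ 2) = ((1 + K) * x) ^ 3 * y := by ring
  have h4 : 8 * y * K ^ 3 = (2 * K) ^ 3 * y := by ring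
  rw [h3, h4]
  exact mul_le_mul_of_nonneg_right h2 hy

/-- the terms of the bound without the weight -/
noncomputable def RT (M : ℝ≥0) (κ : ℕ → ℝ≥0) (ν : ℕ → Measure ℝ≥0) (i J : ℕ) : ℝ≥0∞ :=
  ENNReal.ofReal (((κ i : ℝ)⁻¹) ^ 4 * (κ J : ℝ)⁻¹ * ((M : ℝ)⁻¹) ^ 2) *
    ∫⁻ lam, (gg M 2 (κ J) lam : ℝ≥0∞) ∂(ν J)

/-- the terms of the first kind -/
lemma part1 {M mu : ℝ≥0} {κ : ℕ → ℝ≥0} (ν : ℕ → Measure ℝ≥0) {i J : ℕ} (f : ℝ≥0 → ℝ)
    (K c b : ℝ) (hc : 0 ≤ c) (hb : 0 < b) (hM : 1 ≤ M) (hMmu : M ≤ mu) (hJ : κ J ≠ 0)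
    (hJ1 : κ J ≤ 1) (hi : κ i ≠ 0) (hK : 0 ≤ K)
    (hf : ∀ lam : ℝ≥0, f lam ≤ c * Real.exp (-(b * ((mu : ℝ) + lam)))) :
    ENNReal.ofReal (8 * ((κ i : ℝ)⁻¹) ^ 2 * κ J * ((1 + K)⁻¹) ^ 2) *
      ∫⁻ lam, ENNReal.ofReal (f lam) ∂(ν J) ≤
      ENNReal.ofReal (16 * c * ((κ i : ℝ) / b) ^ 2 * ((1 + K)⁻¹) ^ 2) * RT M κ ν i J := by
  have hi0 : (0 : ℝ) < κ i := by exact_mod_cast pos_iff_ne_zero.2 hi
  have hJ0 : (0 : ℝ) < κ J := by exact_mod_cast pos_iff_ne_zero.2 hJ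
  have h1 := int1 (ν J) f c b hc hb hM hMmu hJ hJ1 hf
  refine (mul_le_mul_right h1 _).trans (le_of_eq ?_)
  unfold RT
  have e : ∀ A B : ℝ, 0 ≤ A → ∀ I : ℝ≥0∞, ENNReal.ofReal A * (ENNReal.ofReal B * I) =
      ENNReal.ofReal (A * B) * I := by
    intro A B hA I
    rw [← mul_assoc, ENNReal.ofReal_mul hA]
  rw [e _ _ (by positivity), e _ _ (by positivity)]
  congr 2
  field_simp
  ring

lemma ofReal_assoc {A : ℝ} (B : ℝ) (hA : 0 ≤ A) (I : ℝ≥0∞) :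
    ENNReal.ofReal A * (ENNReal.ofReal B * I) = ENNReal.ofReal (A * B) * I := by
  rw [← mul_assoc, ENNReal.ofReal_mul hA]

/-- the main bound for a pair -/
lemma pair (hD : TaskDirect) (hR : TaskRho) {α B : ℝ} (hα : 0 < α) (hα1 : α ≤ 1) (hB : 1 ≤ B)
    {M m mu : ℝ≥0} (hM : 1 ≤ M) (hMm : M ≤ m) (hBm : 16 * B / α ≤ m) (hmu : m ≤ mu) (D : ℕ)
    (κ : ℕ → ℝ≥0) (ν : ℕ → Measure ℝ≥0) (hκ : ∀ k, κ k ≤ 1)
    (hν : ∀ k, IsProbabilityMeasure (ν k))
    (hν2 : ∀ k < D, κ k ≠ 0 → ν k {lam | (lam : ℝ) < mu * (1 - κ k)} = 0)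
    {i J : ℕ} (hiD : i < D) (hi : κ i ≠ 0) (hJ : κ J ≠ 0) :
    ((((∑ k ∈ Finset.range D, κ k) / (1 + ∑ k ∈ Finset.range D, κ k))⁻¹ *
      (κ i / ∑ k ∈ Finset.range D, κ k) * (κ J / ∑ k ∈ Finset.range D, κ k) : ℝ≥0) : ℝ≥0∞) *
      TT mu D κ ν i J ≤
    ENNReal.ofReal (80 + 512 * B ^ 2 / α ^ 2) * (RT M κ ν i J * wt α B m mu D κ i J) +
      ENNReal.ofReal ((κ J : ℝ) / (1 + D)) * ∑ k ∈ (Finset.range D).erase i,
        ENNReal.ofReal (4096 * B ^ 3 / α ^ 2) * (RT M κ ν i k * wt α B m mu D κ i k) := by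
  have hi0 : (0 : ℝ) < κ i := by exact_mod_cast pos_iff_ne_zero.2 hi
  have hi1 : (κ i : ℝ) ≤ 1 := by exact_mod_cast hκ i
  have hJ0 : (0 : ℝ) < κ J := by exact_mod_cast pos_iff_ne_zero.2 hJ
  have hMmu : M ≤ mu := hMm.trans hmu
  set K : ℝ := ∑ k ∈ Finset.range D, (κ k : ℝ) with hKdef
  have hiK : (κ i : ℝ) ≤ K :=
    Finset.single_le_sum (f := fun k => (κ k : ℝ)) (fun k _ => (κ k).2) (Finset.mem_range.2 hiD)
  have hK0 : 0 < K := lt_of_lt_of_le hi0 hiK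
  have hW : ((((∑ k ∈ Finset.range D, κ k) / (1 + ∑ k ∈ Finset.range D, κ k))⁻¹ *
      (κ i / ∑ k ∈ Finset.range D, κ k) * (κ J / ∑ k ∈ Finset.range D, κ k) : ℝ≥0) : ℝ≥0∞) ≤
      ENNReal.ofReal (8 * ((κ i : ℝ)⁻¹) ^ 2 * κ J * ((1 + K)⁻¹) ^ 2) := by
    rw [← ENNReal.ofReal_coe_nnreal]
    apply ENNReal.ofReal_le_ofReal
    push_cast
    exact W_le hi0 hi1 hJ0.le hiK
  refine (mul_le_mul_left hW _).trans ?_
  set G : Finset ℕ := (((Finset.range D).erase i).erase J).filter fun k => Gd α m mu (κ k)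
    with hG
  by_cases hcase : ((G.card : ℝ) * B < 1 + D)
  · -- atypical pair
    refine le_add_right ?_
    have h1 := hD mu D κ ν i J hν
    refine (mul_le_mul_right h1 _).trans ?_
    refine (part1 ν (fun lam : ℝ≥0 => Real.exp (-((κ i : ℝ) * ((mu : ℝ) + lam) / (1 + K)))) K 1
      (κ i / (1 + K)) zero_le_one (by positivity) hM hMmu hJ (hκ J) hi hK0.le
      (fun lam => le_of_eq ?_)).trans ?_
    · rw [one_mul]
      congr 2
      ring
    · have hw : (1 : ℝ≥0∞) ≤ wt α B m mu D κ i J := by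
        unfold wt
        rw [if_pos hcase]
        exact le_add_right (le_add_right le_rfl)
      calc ENNReal.ofReal (16 * 1 * ((κ i : ℝ) / (κ i / (1 + K))) ^ 2 * ((1 + K)⁻¹) ^ 2) *
            RT M κ ν i J = ENNReal.ofReal 16 * (RT M κ ν i J * 1) := by
            rw [mul_one (RT M κ ν i J)]
            congr 2
            field_simp
        _ ≤ _ := by
            refine mul_le_mul' (ENNReal.ofReal_le_ofReal ?_) (mul_le_mul_right hw _)
            have : 0 ≤ 512 * B ^ 2 / α ^ 2 := by positivity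
            linarith
  · -- typical pair
    push Not at hcase
    have hDpos : (0 : ℝ) ≤ D := Nat.cast_nonneg D
    have hB0 : 0 < B := by linarith
    have hGc : (1 + (D : ℝ)) / B ≤ G.card := by
      rw [div_le_iff₀ hB0]
      exact hcase
    have hGpos : (0 : ℝ) < G.card := lt_of_lt_of_le (by positivity) hGc
    have hgood : ∀ k ∈ G, α ≤ κ k ∧ ν k {lam | lam < m} = 0 := by
      intro k hk
      have h1 := Finset.mem_filter.1 hk
      have h2 : k < D := Finset.mem_range.1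
        (Finset.mem_of_mem_erase (Finset.mem_of_mem_erase h1.1))
      have h3 : κ k ≠ 0 := by
        intro h
        have h4 := h1.2.1
        rw [h] at h4
        simp only [NNReal.coe_zero] at h4
        linarith
      refine ⟨h1.2.1, measure_mono_null (fun lam hlam => ?_) (hν2 k h2 h3)⟩
      have h5 : (lam : ℝ) < m := by exact_mod_cast hlam
      exact lt_of_lt_of_le h5 h1.2.2
    have hGsub : G ⊆ ((Finset.range D).erase J).erase i := by
      intro k hk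
      have h1 := (Finset.mem_filter.1 hk).1
      rw [Finset.erase_right_comm]
      exact h1
    have h1 := hR α B m mu D κ ν i J G hα hα1 hB hBm hGsub hκ hν hgood
      (by rw [mul_comm]; exact hcase)
    refine (mul_le_mul_right h1 _).trans ?_
    rw [mul_add, mul_add]
    -- first term
    have hT1 : ENNReal.ofReal (8 * ((κ i : ℝ)⁻¹) ^ 2 * κ J * ((1 + K)⁻¹) ^ 2) *
        ∫⁻ lam, ENNReal.ofReal (2 * Real.exp (-(α * ((mu : ℝ) + lam) / (4 * B)))) ∂(ν J) ≤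
        ENNReal.ofReal (512 * B ^ 2 / α ^ 2) *
          (RT M κ ν i J * ((((1 + ∑ k ∈ Finset.range D, κ k)⁻¹) ^ 2 : ℝ≥0) : ℝ≥0∞)) := by
      refine (part1 ν (fun lam : ℝ≥0 => 2 * Real.exp (-(α * ((mu : ℝ) + lam) / (4 * B)))) K 2
        (α / (4 * B)) (by norm_num) (by positivity) hM hMmu hJ (hκ J) hi hK0.le
        (fun lam => le_of_eq ?_)).trans ?_
      · congr 2
        ring
      · rw [← ENNReal.ofReal_coe_nnreal (p := ((1 + ∑ k ∈ Finset.range D, κ k)⁻¹) ^ 2),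
          mul_comm (RT M κ ν i J), ← mul_assoc, ← ENNReal.ofReal_mul (by positivity)]
        refine mul_le_mul_left (ENNReal.ofReal_le_ofReal ?_) _
        push_cast
        rw [← hKdef]
        have e1 : 16 * 2 * ((κ i : ℝ) / (α / (4 * B))) ^ 2 * ((1 + K)⁻¹) ^ 2 =
            512 * B ^ 2 / α ^ 2 * ((1 + K)⁻¹) ^ 2 * (κ i : ℝ) ^ 2 := by
          field_simp
          ring
        rw [e1]
        have e2 : (κ i : ℝ) ^ 2 ≤ 1 := by nlinarith
        have e3 : 0 ≤ 512 * B ^ 2 / α ^ 2 * ((1 + K)⁻¹) ^ 2 := by positivity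
        nlinarith
    -- third term
    have hT3 : ENNReal.ofReal (8 * ((κ i : ℝ)⁻¹) ^ 2 * κ J * ((1 + K)⁻¹) ^ 2) *
        ∫⁻ lam, ENNReal.ofReal ((7 / 10) ^ G.card * Real.exp (-((κ i : ℝ) * ((mu : ℝ) + lam) /
        (2 * (1 + ∑ k ∈ Finset.range D, (κ k : ℝ)))))) ∂(ν J) ≤
        ENNReal.ofReal 64 *
          (RT M κ ν i J * ENNReal.ofReal ((7 / 10 : ℝ) ^ ((1 + (D : ℝ)) / B))) := by
      refine (part1 ν (fun lam : ℝ≥0 => (7 / 10) ^ G.card * Real.exp (-((κ i : ℝ) *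
        ((mu : ℝ) + lam) / (2 * (1 + ∑ k ∈ Finset.range D, (κ k : ℝ)))))) K
        ((7 / 10 : ℝ) ^ ((1 + (D : ℝ)) / B))
        (κ i / (2 * (1 + K))) (by positivity) (by positivity) hM hMmu hJ (hκ J) hi hK0.le
        (fun lam => ?_)).trans ?_
      · have e1 : -((κ i : ℝ) * ((mu : ℝ) + lam) / (2 * (1 + ∑ k ∈ Finset.range D, (κ k : ℝ)))) =
            -(κ i / (2 * (1 + K)) * ((mu : ℝ) + lam)) := by
          rw [← hKdef]
          ring
        rw [e1]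
        refine mul_le_mul_of_nonneg_right ?_ (Real.exp_pos _).le
        rw [← Real.rpow_natCast]
        exact Real.rpow_le_rpow_of_exponent_ge (by norm_num) (by norm_num) hGc
      · rw [mul_comm (RT M κ ν i J), ← mul_assoc, ← ENNReal.ofReal_mul (by positivity)]
        refine mul_le_mul_left (ENNReal.ofReal_le_ofReal (le_of_eq ?_)) _
        field_simp
        ring
    -- second term
    have hT2 : ENNReal.ofReal (8 * ((κ i : ℝ)⁻¹) ^ 2 * κ J * ((1 + K)⁻¹) ^ 2) *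
        ((G.card : ℝ≥0∞)⁻¹ * ∑ k ∈ G, ∫⁻ lam, ENNReal.ofReal
        (Real.exp (-((κ i : ℝ) * lam / (8 * B)))) ∂(ν k)) ≤
        ENNReal.ofReal ((κ J : ℝ) / (1 + D)) * ∑ k ∈ (Finset.range D).erase i,
        ENNReal.ofReal (4096 * B ^ 3 / α ^ 2) * (RT M κ ν i k * wt α B m mu D κ i k) := by
      have hc1 : (G.card : ℝ≥0∞)⁻¹ ≤ ENNReal.ofReal (B / (1 + D)) := by
        have e1 : (G.card : ℝ≥0∞) = ENNReal.ofReal (G.card : ℝ) := by
          rw [ENNReal.ofReal_natCast]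
        rw [e1, ← ENNReal.ofReal_inv_of_pos hGpos]
        apply ENNReal.ofReal_le_ofReal
        have e2 : B / (1 + (D : ℝ)) = ((1 + (D : ℝ)) / B)⁻¹ := by rw [inv_div]
        rw [e2]
        exact inv_anti₀ (by positivity) hGc
      have hc2 : ∀ k ∈ G, ∫⁻ lam, ENNReal.ofReal
          (Real.exp (-((κ i : ℝ) * (lam : ℝ) / (8 * B)))) ∂(ν k) ≤
          ENNReal.ofReal (512 * B ^ 2 / α ^ 2 * ((κ i : ℝ)⁻¹) ^ 2 * ((M : ℝ)⁻¹) ^ 2) *
            (ENNReal.ofReal ((κ k : ℝ)⁻¹) * ∫⁻ lam, (gg M 2 (κ k) lam : ℝ≥0∞) ∂(ν k)) := by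
        intro k hk
        obtain ⟨hk1, hk2⟩ := hgood k hk
        have hk0 : (0 : ℝ) < κ k := by linarith
        have hkk1 : (κ k : ℝ) ≤ 1 := by exact_mod_cast hκ k
        have h2 := int2 (M := M) (m := m) (κ := κ k) (ν k) α (κ i / (8 * B)) hα hα1
          (by positivity) hM hMm hk1 hk2
        have e1 : ∀ lam : ℝ≥0, (κ i : ℝ) * (lam : ℝ) / (8 * B) = κ i / (8 * B) * lam := by
          intro lam; ring
        simp only [e1]
        refine h2.trans ?_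
        rw [ofReal_assoc _ (by positivity)]
        refine mul_le_mul_left (ENNReal.ofReal_le_ofReal ?_) _
        have e2 : 8 / ((κ i / (8 * B)) ^ 2 * α ^ 2) * ((M : ℝ)⁻¹) ^ 2 =
            512 * B ^ 2 / α ^ 2 * ((κ i : ℝ)⁻¹) ^ 2 * ((M : ℝ)⁻¹) ^ 2 * 1 := by
          field_simp
          ring
        rw [e2]
        exact mul_le_mul_of_nonneg_left ((one_le_inv₀ hk0).2 hkk1) (by positivity)
      refine (mul_le_mul_right (mul_le_mul' hc1 (Finset.sum_le_sum hc2)) _).trans ?_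
      rw [← Finset.mul_sum, ofReal_assoc _ (by positivity), ofReal_assoc _ (by positivity),
        Finset.mul_sum, Finset.mul_sum]
      have hG2 : G ⊆ (Finset.range D).erase i := fun k hk =>
        Finset.mem_of_mem_erase (Finset.mem_filter.1 hk).1
      refine (Finset.sum_le_sum_of_subset hG2).trans (Finset.sum_le_sum fun k _ => ?_)
      have hw : ((((1 + ∑ k ∈ Finset.range D, κ k)⁻¹) ^ 2 : ℝ≥0) : ℝ≥0∞) ≤
          wt α B m mu D κ i k := by
        unfold wt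
        exact le_add_left le_rfl
      refine le_trans ?_ (mul_le_mul_right (mul_le_mul_right (mul_le_mul_right hw _) _) _)
      unfold RT
      rw [← ENNReal.ofReal_coe_nnreal (p := ((1 + ∑ k ∈ Finset.range D, κ k)⁻¹) ^ 2)]
      rw [ofReal_assoc _ (by positivity)]
      have e3 : ∀ (a b : ℝ) (I W : ℝ≥0∞), 0 ≤ a → 0 ≤ b → ENNReal.ofReal a *
          (ENNReal.ofReal b * I * W) = ENNReal.ofReal (a * b) * I * W := by
        intro a b I W ha hb
        rw [ENNReal.ofReal_mul ha]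
        ring
      rw [e3 _ _ _ _ (by positivity) (by positivity)]
      have e4 : ∀ (a b c : ℝ) (I : ℝ≥0∞), 0 ≤ a → 0 ≤ b → ENNReal.ofReal a *
          (ENNReal.ofReal b * I * ENNReal.ofReal c) = ENNReal.ofReal (a * b * c) * I := by
        intro a b c I ha hb
        rw [ENNReal.ofReal_mul (mul_nonneg ha hb), ENNReal.ofReal_mul ha]
        ring
      rw [e4 _ _ _ _ (by positivity) (by positivity)]
      refine mul_le_mul_left (ENNReal.ofReal_le_ofReal (le_of_eq ?_)) _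
      push_cast
      rw [← hKdef]
      have hx : (κ i : ℝ) ≠ 0 := hi0.ne'
      have hM0' : (M : ℝ) ≠ 0 := by
        have : (1 : ℝ) ≤ M := by exact_mod_cast hM
        linarith
      generalize (κ k : ℝ)⁻¹ = z
      generalize (κ J : ℝ) = w
      have h1K : (1 + K) ≠ 0 := by positivity
      field_simp
      ring
    calc _ ≤ ENNReal.ofReal (512 * B ^ 2 / α ^ 2) *
          (RT M κ ν i J * ((((1 + ∑ k ∈ Finset.range D, κ k)⁻¹) ^ 2 : ℝ≥0) : ℝ≥0∞)) +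
          ENNReal.ofReal ((κ J : ℝ) / (1 + D)) * ∑ k ∈ (Finset.range D).erase i,
        ENNReal.ofReal (4096 * B ^ 3 / α ^ 2) * (RT M κ ν i k * wt α B m mu D κ i k) +
          ENNReal.ofReal 64 *
          (RT M κ ν i J * ENNReal.ofReal ((7 / 10 : ℝ) ^ ((1 + (D : ℝ)) / B))) :=
          add_le_add (add_le_add hT1 hT2) hT3
      _ = (ENNReal.ofReal (512 * B ^ 2 / α ^ 2) *
          (RT M κ ν i J * ((((1 + ∑ k ∈ Finset.range D, κ k)⁻¹) ^ 2 : ℝ≥0) : ℝ≥0∞)) +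
          ENNReal.ofReal 64 *
          (RT M κ ν i J * ENNReal.ofReal ((7 / 10 : ℝ) ^ ((1 + (D : ℝ)) / B)))) +
          ENNReal.ofReal ((κ J : ℝ) / (1 + D)) * ∑ k ∈ (Finset.range D).erase i,
        ENNReal.ofReal (4096 * B ^ 3 / α ^ 2) * (RT M κ ν i k * wt α B m mu D κ i k) := by
          ring
      _ ≤ _ := by
          refine add_le_add_left ?_ _
          have hw1 : ((((1 + ∑ k ∈ Finset.range D, κ k)⁻¹) ^ 2 : ℝ≥0) : ℝ≥0∞) ≤
              wt α B m mu D κ i J := by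
            unfold wt
            exact le_add_left le_rfl
          have hw2 : ENNReal.ofReal ((7 / 10 : ℝ) ^ ((1 + (D : ℝ)) / B)) ≤
              wt α B m mu D κ i J := by
            unfold wt
            exact le_add_right (le_add_left le_rfl)
          calc _ ≤ ENNReal.ofReal (512 * B ^ 2 / α ^ 2) *
              (RT M κ ν i J * wt α B m mu D κ i J) +
              ENNReal.ofReal 64 * (RT M κ ν i J * wt α B m mu D κ i J) :=
              add_le_add (mul_le_mul_right (mul_le_mul_right hw1 _) _)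
                (mul_le_mul_right (mul_le_mul_right hw2 _) _)
            _ = (ENNReal.ofReal (512 * B ^ 2 / α ^ 2) + ENNReal.ofReal 64) *
                (RT M κ ν i J * wt α B m mu D κ i J) := by ring
            _ ≤ _ := by
                rw [← ENNReal.ofReal_add (by positivity) (by norm_num)]
                refine mul_le_mul_left (ENNReal.ofReal_le_ofReal ?_) _
                linarith

theorem lossQ : TaskDirect → TaskRho → TaskLossQ := by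
  intro hD hR α B hα hα1 hB
  have hB0 : 0 < B := by linarith
  refine ⟨Real.toNNReal ((80 + 512 * B ^ 2 / α ^ 2) + 4096 * B ^ 3 / α ^ 2), ?_⟩
  intro M m mu hM hMm hBm hmu D κ ν hκ hν hν2 _
  unfold LL
  rw [Finset.mul_sum]
  refine Finset.sum_le_sum fun i hi => ?_
  have hiD := Finset.mem_range.1 hi
  have hM1 : (1 : ℝ) ≤ M := by exact_mod_cast hM
  have hDpos : (0 : ℝ) ≤ D := Nat.cast_nonneg D
  have hpair : ∀ J ∈ (Finset.range D).erase i,
      ((((∑ k ∈ Finset.range D, κ k) / (1 + ∑ k ∈ Finset.range D, κ k))⁻¹ *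
      (κ i / ∑ k ∈ Finset.range D, κ k) * (κ J / ∑ k ∈ Finset.range D, κ k) : ℝ≥0) : ℝ≥0∞) *
      TT mu D κ ν i J ≤
      ENNReal.ofReal (80 + 512 * B ^ 2 / α ^ 2) * (RT M κ ν i J * wt α B m mu D κ i J) +
      ENNReal.ofReal ((κ J : ℝ) / (1 + D)) * ∑ k ∈ (Finset.range D).erase i,
        ENNReal.ofReal (4096 * B ^ 3 / α ^ 2) * (RT M κ ν i k * wt α B m mu D κ i k) := by
    intro J hJ
    rw [Finset.mem_erase, Finset.mem_range] at hJ
    by_cases h1 : κ i = 0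
    · simp [h1]
    by_cases h2 : κ J = 0
    · simp [h2]
    exact pair hD hR hα hα1 hB hM hMm hBm hmu D κ ν hκ hν hν2 hiD h1 h2
  refine (Finset.sum_le_sum hpair).trans ?_
  rw [Finset.sum_add_distrib, ← Finset.sum_mul]
  have hs : ∑ J ∈ (Finset.range D).erase i, ENNReal.ofReal ((κ J : ℝ) / (1 + D)) ≤ 1 := by
    rw [← ENNReal.ofReal_sum_of_nonneg (fun J _ => by positivity), ← ENNReal.ofReal_one]
    apply ENNReal.ofReal_le_ofReal
    rw [← Finset.sum_div, div_le_one (by positivity)]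
    have h1 : ∑ J ∈ (Finset.range D).erase i, (κ J : ℝ) ≤ ∑ J ∈ Finset.range D, (1 : ℝ) := by
      refine (Finset.sum_le_sum_of_subset_of_nonneg (Finset.erase_subset _ _)
        (fun J _ _ => (κ J).2)).trans (Finset.sum_le_sum fun J _ => ?_)
      exact_mod_cast hκ J
    rw [Finset.sum_const, Finset.card_range, nsmul_eq_mul, mul_one] at h1
    linarith
  refine (add_le_add_right (mul_le_mul_left hs _) _).trans ?_
  rw [one_mul, ← Finset.sum_add_distrib, Finset.mul_sum]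
  refine Finset.sum_le_sum fun J _ => le_of_eq ?_
  rw [← add_mul, ← ENNReal.ofReal_add (by positivity) (by positivity)]
  unfold RT
  have hM2 : ((Real.toNNReal ((80 + 512 * B ^ 2 / α ^ 2) + 4096 * B ^ 3 / α ^ 2) / M ^ 2 : ℝ≥0) :
      ℝ≥0∞) = ENNReal.ofReal (((80 + 512 * B ^ 2 / α ^ 2) + 4096 * B ^ 3 / α ^ 2) *
        ((M : ℝ)⁻¹) ^ 2) := by
    rw [← ENNReal.ofReal_coe_nnreal]
    congr 1
    push_cast
    rw [Real.coe_toNNReal _ (by positivity)]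
    field_simp
  have hk : ((((κ i)⁻¹) ^ 4 * (κ J)⁻¹ : ℝ≥0) : ℝ≥0∞) =
      ENNReal.ofReal (((κ i : ℝ)⁻¹) ^ 4 * (κ J : ℝ)⁻¹) := by
    rw [← ENNReal.ofReal_coe_nnreal]
    congr 1
  rw [hM2, hk, ENNReal.ofReal_mul (p := (κ i : ℝ)⁻¹ ^ 4 * (κ J : ℝ)⁻¹) (by positivity),
    ENNReal.ofReal_mul (p := (80 + 512 * B ^ 2 / α ^ 2) + 4096 * B ^ 3 / α ^ 2) (by positivity)]
  ring

end Pool.Agent.W540.FR
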